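import Pool.Agent.Q66.SH.Stm

/-!
# Project SH, job FINU (helper87)
-/

set_option autoImplicit false

open Filter Topology
open scoped ENNReal

namespace Pool.Agent.Q87.SH

open Pool.Agent.Q66.SH

namespace FINU

section
variable {H : Type} [NormedAddCommGroup H] [InnerProductSpace ℂ H] [CompleteSpace H]

/-- differences of successive projections -/
noncomputable def Qp (b : HilbertBasis ℕ ℂ H) (k : ℕ → ℕ) (j : ℕ) : H →L[ℂ] H :=
  P b (k (j + 1)) - P b (k j)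

theorem orthProj (hP : S_PB) (b : HilbertBasis ℕ ℂ H) (k : ℕ → ℕ) (hk : Monotone k) :
    OrthProj (Qp b k) := by
  obtain ⟨h1, h2, -, -, -, -⟩ := hP H b
  have hl : ∀ {s t : ℕ}, s ≤ t → P b s * P b t = P b s := fun h => (h1 _ _ h).1
  have hr : ∀ {s t : ℕ}, s ≤ t → P b t * P b s = P b s := fun h => (h1 _ _ h).2
  refine ⟨fun i => ?_, fun i j hij => ?_, fun i => ?_⟩
  · unfold Qp
    have h3 : k i ≤ k (i + 1) := hk (Nat.le_succ i)
    rw [mul_sub, sub_mul, sub_mul, hl le_rfl, hl h3, hr h3, hl le_rfl]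
    abel
  · unfold Qp
    rcases lt_or_gt_of_ne hij with h | h
    · have h3 : k i ≤ k (i + 1) := hk (Nat.le_succ i)
      have h4 : k (i + 1) ≤ k j := hk h
      have h5 : k j ≤ k (j + 1) := hk (Nat.le_succ j)
      rw [mul_sub, sub_mul, sub_mul, hl (h4.trans h5), hl ((h3.trans h4).trans h5), hl h4,
        hl (h3.trans h4)]
      abel
    · have h3 : k j ≤ k (j + 1) := hk (Nat.le_succ j)
      have h4 : k (j + 1) ≤ k i := hk h
      have h5 : k i ≤ k (i + 1) := hk (Nat.le_succ i)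
      rw [mul_sub, sub_mul, sub_mul, hr (h4.trans h5), hr h4, hr ((h3.trans h4).trans h5),
        hr (h3.trans h4)]
      abel
  · unfold Qp
    rw [map_sub, h2, h2]

theorem norm_zero' {M : (H →L[ℂ] H) → ℝ≥0∞} {K : ℝ≥0∞} {R : ℕ → ℝ≥0∞} (h : QN H M K R) :
    M 0 = 0 := by
  have h1 : RankLE (0 : H →L[ℂ] H) 0 :=
    ⟨⊥, inferInstance, by simp, fun x => by simp⟩
  have h2 := h.fin 0 0 h1
  simpa using h2

theorem sum_le {M : (H →L[ℂ] H) → ℝ≥0∞} {K : ℝ≥0∞} {R : ℕ → ℝ≥0∞} (h : QN H M K R)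
    (E : ℕ → (H →L[ℂ] H)) (η : ℝ≥0∞) (n : ℕ) (hE : ∀ j < n, M (E j) ≤ η) :
    ∀ m ≤ n, M (∑ j ∈ Finset.range m, E j) ≤ K ^ m * (m * η) := by
  intro m
  induction m with
  | zero =>
    intro _
    rw [Finset.sum_range_zero, norm_zero' h]
    exact zero_le
  | succ m ih =>
    intro hm
    rw [Finset.sum_range_succ]
    refine (h.add _ _).trans ?_
    have h1 := ih (by omega)
    have h2 := hE m (by omega)
    have h3 : η ≤ K ^ m * η := le_mul_of_one_le_left zero_le (one_le_pow₀ h.one_le)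
    calc K * (M (∑ j ∈ Finset.range m, E j) + M (E m)) ≤ K * (K ^ m * (m * η) + K ^ m * η) := by
          gcongr
          exact h2.trans h3
      _ = K ^ (m + 1) * (((m + 1 : ℕ) : ℝ≥0∞) * η) := by
          push_cast
          ring

/-- the main estimate -/
theorem main (hQ : S_QN) (hU : S_UP) (hP : S_PB) (hN : S_NIN) (b : HilbertBasis ℕ ℂ H)
    (q p : ℝ≥0∞) (hp : p ≠ 0) (hG : Glide b q p) :
    ∃ K : ℝ≥0∞, K ≠ ∞ ∧ ∀ n : ℕ, 1 ≤ n →
      (n : ℝ≥0∞) ^ (q⁻¹).toReal ≤ K * (2 * (n : ℝ≥0∞) ^ (p⁻¹).toReal) := by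
  obtain ⟨K, R, h⟩ := hQ H p hp
  refine ⟨K, h.K_ne, fun n hn => ?_⟩
  have hn0 : (n : ℝ≥0∞) ≠ 0 := by
    simp only [ne_eq, Nat.cast_eq_zero]
    omega
  have hK0 : K ≠ 0 := fun h0 => by
    have := h.one_le
    rw [h0] at this
    exact absurd this (by simp)
  have hKn : K ^ n * n ≠ ∞ := ENNReal.mul_ne_top (ENNReal.pow_ne_top h.K_ne) (ENNReal.natCast_ne_top n)
  obtain ⟨C, k, hk, hC, hS, hE⟩ := hG n hn (K ^ n * n)⁻¹ (ENNReal.inv_ne_zero.2 hKn)
  let D : ℕ → (H →L[ℂ] H) := fun j => Qp b k j * C j * Qp b k j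
  let E : ℕ → (H →L[ℂ] H) := fun j => C j - D j
  have hO := orthProj hP b k hk
  obtain ⟨-, -, -, hnorm, -, -⟩ := hP H b
  have hD : ∀ j < n, D j = Qp b k j * D j * Qp b k j := by
    intro j _
    have h1 := hO.1 j
    show Qp b k j * C j * Qp b k j = Qp b k j * (Qp b k j * C j * Qp b k j) * Qp b k j
    rw [← mul_assoc, ← mul_assoc, h1, mul_assoc _ (Qp b k j) (Qp b k j), h1]
  have hD1 : ∀ j < n, N p (D j) ≤ 1 := by
    intro j hj
    have h1 : ‖Qp b k j‖ ≤ 1 := hnorm _ _ (hk (Nat.le_succ j))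
    refine (h.ideal (Qp b k j) (C j) (Qp b k j) h1 h1).trans ?_
    rw [((hN H p hp (C j)).2 1 (hC j hj)).1]
    simp
  have hE1 : ∀ j < n, N p (E j) ≤ (K ^ n * n)⁻¹ := fun j hj => hE j hj
  have hsumE := sum_le h E _ n hE1 n le_rfl
  have hsumE1 : N p (∑ j ∈ Finset.range n, E j) ≤ 1 := by
    refine hsumE.trans ?_
    rw [← mul_assoc]
    exact ENNReal.mul_inv_le_one _
  have hsumD := hU H p hp (Qp b k) hO D n hn hD hD1
  have hsum : ∑ j ∈ Finset.range n, C j =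
      ∑ j ∈ Finset.range n, D j + ∑ j ∈ Finset.range n, E j := by
    rw [← Finset.sum_add_distrib]
    refine Finset.sum_congr rfl fun j _ => ?_
    show C j = D j + (C j - D j)
    abel
  have hval := ((hN H p hp _).2 _ hS).1
  have hone : (1 : ℝ≥0∞) ≤ (n : ℝ≥0∞) ^ (p⁻¹).toReal := by
    have h1 : (1 : ℝ≥0∞) ≤ n := by exact_mod_cast hn
    calc (1 : ℝ≥0∞) = 1 ^ (p⁻¹).toReal := (ENNReal.one_rpow _).symm
      _ ≤ (n : ℝ≥0∞) ^ (p⁻¹).toReal := ENNReal.rpow_le_rpow h1 ENNReal.toReal_nonneg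
  have hfin : (n : ℝ≥0∞) ^ (q⁻¹).toReal = N p (∑ j ∈ Finset.range n, C j) := by
    rw [hval, ← ENNReal.ofReal_rpow_of_nonneg (by positivity) ENNReal.toReal_nonneg,
      ENNReal.ofReal_natCast]
  rw [hfin, hsum]
  refine (h.add _ _).trans ?_
  gcongr
  calc N p (∑ j ∈ Finset.range n, D j) + N p (∑ j ∈ Finset.range n, E j)
      ≤ (n : ℝ≥0∞) ^ (p⁻¹).toReal + (n : ℝ≥0∞) ^ (p⁻¹).toReal :=
        add_le_add hsumD (hsumE1.trans hone)
    _ = 2 * (n : ℝ≥0∞) ^ (p⁻¹).toReal := by ring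

end

/-- powers -/
theorem pow_contra {a c : ℝ} (h : c < a) (K : ℝ≥0∞) (hK : K ≠ ∞)
    (hn : ∀ n : ℕ, 1 ≤ n → (n : ℝ≥0∞) ^ a ≤ K * (2 * (n : ℝ≥0∞) ^ c))
    (hc : 0 ≤ c) : False := by
  have h1 : Tendsto (fun n : ℕ => (n : ℝ) ^ (a - c)) atTop atTop :=
    (tendsto_rpow_atTop (sub_pos.2 h)).comp tendsto_natCast_atTop_atTop
  obtain ⟨n, hn1, hn2⟩ := ((h1.eventually_gt_atTop (K.toReal * 2)).and
    (eventually_ge_atTop 1)).exists
  have hn0 : (0 : ℝ) < n := by exact_mod_cast hn2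
  have h3 := ENNReal.toReal_mono (ENNReal.mul_ne_top hK (ENNReal.mul_ne_top (by simp)
    (ENNReal.rpow_ne_top_of_nonneg hc (ENNReal.natCast_ne_top n)))) (hn n hn2)
  rw [← ENNReal.toReal_rpow, ENNReal.toReal_mul, ENNReal.toReal_mul, ← ENNReal.toReal_rpow] at h3
  simp only [ENNReal.toReal_natCast, ENNReal.toReal_ofNat] at h3
  rw [Real.rpow_sub hn0, lt_div_iff₀ (Real.rpow_pos_of_pos hn0 c)] at hn1
  linarith

end FINU

open FINU in
theorem t_FINU (hQ : S_QN) (hU : S_UP) (hP : S_PB) (hN : S_NIN) : S_FINU := by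
  intro H _ _ _ b q p hq hp hqp hG
  obtain ⟨K, hK, hn⟩ := main hQ hU hP hN b q p hp hG
  have h1 : (p⁻¹).toReal < (q⁻¹).toReal :=
    (ENNReal.toReal_lt_toReal (ENNReal.inv_ne_top.2 hp) (ENNReal.inv_ne_top.2 hq)).2
      (ENNReal.inv_lt_inv.2 hqp)
  exact pow_contra h1 K hK hn ENNReal.toReal_nonneg

end Pool.Agent.Q87.SH
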